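import Pool.Agent.TH39.J102

/-!
# Recursion on formulas and lists is arithmetical
-/

set_option autoImplicit false

namespace Pool.Agent.TH8.Arith

open Pool.Agent.TH672 Pool.Agent.TH672.Form

/-! ### Terms -/

/-- The numeral. -/
def nm : ℕ → Tm
  | 0 => .zero
  | n + 1 => .succ (nm n)

theorem nm_eval (n : ℕ) (ρ : ℕ → ℕ) : (nm n).eval ρ = n := by
  induction n with
  | zero => rfl
  | succ n ih => simp [nm, Tm.eval, ih]

/-- The list of terms as a function. -/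
def sq (l : List Tm) (i : ℕ) : Tm := l.getD i .zero

theorem ar_true : Ar (fun _ => True) := (Ar.eq 0 0).congr (fun v => by simp)

theorem ar_false : Ar (fun _ => False) := ar_true.not.congr (fun v => by simp)

theorem app1 {R : ℕ → Prop} (h : Ar (fun v => R (v 0))) (s : Tm) : Ar (fun v => R (s.eval v)) :=
  h.sub (sq [s])

theorem app2 {R : ℕ → ℕ → Prop} (h : Ar (fun v => R (v 0) (v 1))) (s t : Tm) :
    Ar (fun v => R (s.eval v) (t.eval v)) :=
  h.sub (sq [s, t])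

theorem app3 {R : ℕ → ℕ → ℕ → Prop} (h : Ar (fun v => R (v 0) (v 1) (v 2))) (s t u : Tm) :
    Ar (fun v => R (s.eval v) (t.eval v) (u.eval v)) :=
  h.sub (sq [s, t, u])

theorem app4 {R : ℕ → ℕ → ℕ → ℕ → Prop} (h : Ar (fun v => R (v 0) (v 1) (v 2) (v 3)))
    (s t u w : Tm) : Ar (fun v => R (s.eval v) (t.eval v) (u.eval v) (w.eval v)) :=
  h.sub (sq [s, t, u, w])

/-! ### Codes -/

/-- The code of a formula. -/
def ic : Form → ℕ
  | bot => Nat.pair 0 0
  | eq x y => Nat.pair 1 (Nat.pair x y)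
  | zero x => Nat.pair 2 x
  | succ x y => Nat.pair 3 (Nat.pair x y)
  | add x y z => Nat.pair 4 (Nat.pair x (Nat.pair y z))
  | mul x y z => Nat.pair 5 (Nat.pair x (Nat.pair y z))
  | imp φ ψ => Nat.pair 6 (Nat.pair (ic φ) (ic ψ))
  | all x φ => Nat.pair 7 (Nat.pair x (ic φ))

theorem ic_inj {φ ψ : Form} (h : ic φ = ic ψ) : φ = ψ := by
  induction φ generalizing ψ with
  | bot => cases ψ <;> simp_all [ic, Nat.pair_eq_pair]
  | eq x y => cases ψ <;> simp_all [ic, Nat.pair_eq_pair]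
  | zero x => cases ψ <;> simp_all [ic, Nat.pair_eq_pair]
  | succ x y => cases ψ <;> simp_all [ic, Nat.pair_eq_pair]
  | add x y z => cases ψ <;> simp_all [ic, Nat.pair_eq_pair]
  | mul x y z => cases ψ <;> simp_all [ic, Nat.pair_eq_pair]
  | imp φ₁ φ₂ ih₁ ih₂ =>
    cases ψ with
    | imp ψ₁ ψ₂ =>
      simp only [ic, Nat.pair_eq_pair, true_and] at h
      rw [ih₁ h.1, ih₂ h.2]
    | _ => simp [ic, Nat.pair_eq_pair] at h
  | all x φ ih =>
    cases ψ with
    | all y ψ =>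
      simp only [ic, Nat.pair_eq_pair, true_and] at h
      rw [h.1, ih h.2]
    | _ => simp [ic, Nat.pair_eq_pair] at h

/-- The code of a list of formulas. -/
def il : List Form → ℕ
  | [] => 0
  | φ :: Γ => Nat.pair (ic φ) (il Γ) + 1

theorem il_inj {Γ Δ : List Form} (h : il Γ = il Δ) : Γ = Δ := by
  induction Γ generalizing Δ with
  | nil => cases Δ <;> simp_all [il]
  | cons φ Γ ih =>
    cases Δ with
    | nil => simp [il] at h
    | cons ψ Δ =>
      simp only [il, Nat.add_right_cancel_iff, Nat.pair_eq_pair] at h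
      rw [ic_inj h.1, ih h.2]

/-- The formula is atomic. -/
def Atomic : Form → Prop
  | imp _ _ => False
  | all _ _ => False
  | _ => True

/-- The code is that of an atomic formula. -/
def IsAt (c : ℕ) : Prop := ∃ φ : Form, Atomic φ ∧ c = ic φ

theorem isAt_iff (c : ℕ) : IsAt c ↔ c = Nat.pair 0 0 ∨ (∃ x y, c = Nat.pair 1 (Nat.pair x y)) ∨
    (∃ x, c = Nat.pair 2 x) ∨ (∃ x y, c = Nat.pair 3 (Nat.pair x y)) ∨
    (∃ x y z, c = Nat.pair 4 (Nat.pair x (Nat.pair y z))) ∨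
    (∃ x y z, c = Nat.pair 5 (Nat.pair x (Nat.pair y z))) := by
  constructor
  · rintro ⟨φ, h1, rfl⟩
    cases φ <;> simp_all [ic, Atomic, Nat.pair_eq_pair]
  · rintro (h | ⟨x, y, h⟩ | ⟨x, h⟩ | ⟨x, y, h⟩ | ⟨x, y, z, h⟩ | ⟨x, y, z, h⟩)
    · exact ⟨bot, trivial, h⟩
    · exact ⟨eq x y, trivial, h⟩
    · exact ⟨zero x, trivial, h⟩
    · exact ⟨succ x y, trivial, h⟩
    · exact ⟨add x y z, trivial, h⟩
    · exact ⟨mul x y z, trivial, h⟩

theorem ar_isAt : Ar (fun v => IsAt (v 0)) := by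
  have h0 : Ar (fun v => v 0 = Nat.pair 0 0) :=
    (Ar.tm (.var 0) (.pair (nm 0) (nm 0))).congr (fun v => by simp [nm_eval, Tm.eval])
  have h1 : Ar (fun v => ∃ x y, v 0 = Nat.pair 1 (Nat.pair x y)) :=
    (((Ar.tm (.var 0) (.pair (nm 1) (.pair (.var 1) (.var 2)))).ex 2).ex 1).congr
      (fun v => by simp [nm_eval, Tm.eval])
  have h2 : Ar (fun v => ∃ x, v 0 = Nat.pair 2 x) :=
    ((Ar.tm (.var 0) (.pair (nm 2) (.var 1))).ex 1).congr (fun v => by simp [nm_eval, Tm.eval])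
  have h3 : Ar (fun v => ∃ x y, v 0 = Nat.pair 3 (Nat.pair x y)) :=
    (((Ar.tm (.var 0) (.pair (nm 3) (.pair (.var 1) (.var 2)))).ex 2).ex 1).congr
      (fun v => by simp [nm_eval, Tm.eval])
  have h4 : Ar (fun v => ∃ x y z, v 0 = Nat.pair 4 (Nat.pair x (Nat.pair y z))) :=
    ((((Ar.tm (.var 0) (.pair (nm 4) (.pair (.var 1) (.pair (.var 2) (.var 3))))).ex 3).ex 2).ex
      1).congr (fun v => by simp [nm_eval, Tm.eval])
  have h5 : Ar (fun v => ∃ x y z, v 0 = Nat.pair 5 (Nat.pair x (Nat.pair y z))) :=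
    ((((Ar.tm (.var 0) (.pair (nm 5) (.pair (.var 1) (.pair (.var 2) (.var 3))))).ex 3).ex 2).ex
      1).congr (fun v => by simp [nm_eval, Tm.eval])
  exact (h0.or (h1.or (h2.or (h3.or (h4.or h5))))).congr (fun v => (isAt_iff (v 0)).symm)

/-! ### Recursion on formulas -/

/-- A relation between formulas, arguments and values that is defined by recursion. -/
def TF (A : ℕ → ℕ → ℕ → Prop) (I : ℕ → ℕ → ℕ → ℕ → ℕ → ℕ → ℕ → ℕ → Prop)
    (L : ℕ → ℕ → ℕ → ℕ → ℕ → ℕ → Prop) : Form → ℕ → ℕ → Prop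
  | imp φ ψ, a, r => ∃ a₁ r₁ a₂ r₂, TF A I L φ a₁ r₁ ∧ TF A I L ψ a₂ r₂ ∧
      I (ic φ) (ic ψ) a a₁ r₁ a₂ r₂ r
  | all x φ, a, r => ∃ a₁ r₁, TF A I L φ a₁ r₁ ∧ L x (ic φ) a a₁ r₁ r
  | φ, a, r => A (ic φ) a r

/-- The rules for the relation. -/
def rulesF (A : ℕ → ℕ → ℕ → Prop) (I : ℕ → ℕ → ℕ → ℕ → ℕ → ℕ → ℕ → ℕ → Prop)
    (L : ℕ → ℕ → ℕ → ℕ → ℕ → ℕ → Prop) : List Rule :=
  [⟨.pair (.var 0) (.pair (.var 1) (.var 2)), [], fun v => IsAt (v 0) ∧ A (v 0) (v 1) (v 2)⟩,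
   ⟨.pair (.pair (nm 6) (.pair (.var 0) (.var 1))) (.pair (.var 2) (.var 7)),
    [.pair (.var 0) (.pair (.var 3) (.var 4)), .pair (.var 1) (.pair (.var 5) (.var 6))],
    fun v => I (v 0) (v 1) (v 2) (v 3) (v 4) (v 5) (v 6) (v 7)⟩,
   ⟨.pair (.pair (nm 7) (.pair (.var 0) (.var 1))) (.pair (.var 2) (.var 5)),
    [.pair (.var 1) (.pair (.var 3) (.var 4))],
    fun v => L (v 0) (v 1) (v 2) (v 3) (v 4) (v 5)⟩]

section

variable {A : ℕ → ℕ → ℕ → Prop} {I : ℕ → ℕ → ℕ → ℕ → ℕ → ℕ → ℕ → ℕ → Prop}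
  {L : ℕ → ℕ → ℕ → ℕ → ℕ → ℕ → Prop}

theorem tf_atomic {φ : Form} (h : Atomic φ) (a r : ℕ) : TF A I L φ a r ↔ A (ic φ) a r := by
  cases φ <;> simp_all [Atomic, TF]

theorem derF_of (φ : Form) : ∀ a r, TF A I L φ a r →
    Derivable (rulesF A I L) (Nat.pair (ic φ) (Nat.pair a r)) := by
  have key : ∀ φ : Form, Atomic φ → ∀ a r, TF A I L φ a r →
      Derivable (rulesF A I L) (Nat.pair (ic φ) (Nat.pair a r)) := by
    intro φ hφ a r h
    rw [tf_atomic hφ] at h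
    have := Derivable.intro (R := rulesF A I L) _ (by simp [rulesF]; exact Or.inl rfl)
      (fun i => if i = 0 then ic φ else if i = 1 then a else r)
      (by exact ⟨⟨φ, hφ, by simp⟩, by simpa using h⟩) (by simp)
    simpa [Tm.eval] using this
  induction φ with
  | imp φ ψ ih₁ ih₂ =>
    rintro a r ⟨a₁, r₁, a₂, r₂, h₁, h₂, h⟩
    have := Derivable.intro (R := rulesF A I L) _
      (by simp [rulesF]; exact Or.inr (Or.inl rfl))
      (fun i => if i = 0 then ic φ else if i = 1 then ic ψ else if i = 2 then a else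
        if i = 3 then a₁ else if i = 4 then r₁ else if i = 5 then a₂ else if i = 6 then r₂ else r)
      (by simpa using h) (by
        simp only [List.mem_cons, List.not_mem_nil, or_false, forall_eq_or_imp, forall_eq, Tm.eval]
        exact ⟨by simpa using ih₁ _ _ h₁, by simpa using ih₂ _ _ h₂⟩)
    simpa [Tm.eval, nm_eval, ic] using this
  | all x φ ih =>
    rintro a r ⟨a₁, r₁, h₁, h⟩
    have := Derivable.intro (R := rulesF A I L) _
      (by simp [rulesF]; exact Or.inr (Or.inr rfl))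
      (fun i => if i = 0 then x else if i = 1 then ic φ else if i = 2 then a else
        if i = 3 then a₁ else if i = 4 then r₁ else r)
      (by simpa using h) (by
        simp only [List.mem_cons, List.not_mem_nil, or_false, forall_eq, Tm.eval]
        simpa using ih _ _ h₁)
    simpa [Tm.eval, nm_eval, ic] using this
  | _ => exact key _ trivial

theorem of_derF {n : ℕ} (h : Derivable (rulesF A I L) n) :
    ∃ φ a r, n = Nat.pair (ic φ) (Nat.pair a r) ∧ TF A I L φ a r := by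
  induction h with
  | intro r hr ρ hs _ ih =>
    simp only [rulesF, List.mem_cons, List.not_mem_nil, or_false] at hr
    rcases hr with rfl | rfl | rfl
    · obtain ⟨⟨φ, h1, h2⟩, h3⟩ := hs
      exact ⟨φ, ρ 1, ρ 2, by simp [Tm.eval, h2], (tf_atomic h1 _ _).2 (by rw [← h2]; exact h3)⟩
    · simp only [List.mem_cons, List.not_mem_nil, or_false, forall_eq_or_imp, forall_eq,
        Tm.eval, Nat.pair_eq_pair] at ih
      obtain ⟨⟨φ, _, _, ⟨h1, rfl, rfl⟩, h4⟩, ⟨ψ, _, _, ⟨h5, rfl, rfl⟩, h8⟩⟩ := ih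
      refine ⟨imp φ ψ, ρ 2, ρ 7, ?_, ρ 3, ρ 4, ρ 5, ρ 6, h4, h8, ?_⟩
      · simp [Tm.eval, nm_eval, ic, h1, h5]
      · rw [← h1, ← h5]; exact hs
    · simp only [List.mem_cons, List.not_mem_nil, or_false, forall_eq,
        Tm.eval, Nat.pair_eq_pair] at ih
      obtain ⟨φ, _, _, ⟨h1, rfl, rfl⟩, h4⟩ := ih
      refine ⟨all (ρ 0) φ, ρ 2, ρ 5, ?_, ρ 3, ρ 4, h4, ?_⟩
      · simp [Tm.eval, nm_eval, ic, h1]
      · rw [← h1]; exact hs

theorem ar_TF (hA : Ar (fun v => A (v 0) (v 1) (v 2)))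
    (hI : Ar (fun v => I (v 0) (v 1) (v 2) (v 3) (v 4) (v 5) (v 6) (v 7)))
    (hL : Ar (fun v => L (v 0) (v 1) (v 2) (v 3) (v 4) (v 5))) :
    Ar (fun v => ∃ φ, v 0 = ic φ ∧ TF A I L φ (v 1) (v 2)) := by
  have h := Ar.derivable (rulesF A I L) (by
    intro r hr
    simp only [rulesF, List.mem_cons, List.not_mem_nil, or_false] at hr
    rcases hr with rfl | rfl | rfl
    · exact ar_isAt.and hA
    · exact hI
    · exact hL)
  refine (app1 h (.pair (.var 0) (.pair (.var 1) (.var 2)))).congr (fun v => ?_)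
  simp only [Tm.eval]
  constructor
  · intro h
    obtain ⟨φ, a, r, h1, h2⟩ := of_derF h
    rw [Nat.pair_eq_pair, Nat.pair_eq_pair] at h1
    obtain ⟨h1, rfl, rfl⟩ := h1
    exact ⟨φ, h1, h2⟩
  · rintro ⟨φ, h1, h2⟩
    rw [h1]
    exact derF_of φ _ _ h2

end

theorem ar_form : Ar (fun v => ∃ φ, v 0 = ic φ) := by
  refine (ar_TF (A := fun _ _ _ => True) (I := fun _ _ _ _ _ _ _ _ => True)
    (L := fun _ _ _ _ _ _ => True) ar_true ar_true ar_true).congr (fun v => ?_)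
  refine exists_congr (fun φ => and_iff_left ?_)
  generalize v 1 = a
  generalize v 2 = r
  induction φ generalizing a r with
  | imp φ ψ ih₁ ih₂ => exact ⟨0, 0, 0, 0, ih₁ 0 0, ih₂ 0 0, trivial⟩
  | all x φ ih => exact ⟨0, 0, ih 0 0, trivial⟩
  | _ => trivial

/-! ### Recursion on lists of formulas -/

/-- A relation between lists of formulas, arguments and values that is defined by recursion. -/
def TL (N : ℕ → ℕ → Prop) (C : ℕ → ℕ → ℕ → ℕ → ℕ → ℕ → Prop) : List Form → ℕ → ℕ → Prop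
  | [], a, r => N a r
  | φ :: Γ, a, r => ∃ a₁ r₁, TL N C Γ a₁ r₁ ∧ C (ic φ) (il Γ) a a₁ r₁ r

/-- The rules for the relation. -/
def rulesL (N : ℕ → ℕ → Prop) (C : ℕ → ℕ → ℕ → ℕ → ℕ → ℕ → Prop) : List Rule :=
  [⟨.pair .zero (.pair (.var 0) (.var 1)), [], fun v => N (v 0) (v 1)⟩,
   ⟨.pair (.succ (.pair (.var 0) (.var 1))) (.pair (.var 2) (.var 5)),
    [.pair (.var 1) (.pair (.var 3) (.var 4))],
    fun v => (∃ φ, v 0 = ic φ) ∧ C (v 0) (v 1) (v 2) (v 3) (v 4) (v 5)⟩]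

section

variable {N : ℕ → ℕ → Prop} {C : ℕ → ℕ → ℕ → ℕ → ℕ → ℕ → Prop}

theorem derL_of (Γ : List Form) : ∀ a r, TL N C Γ a r →
    Derivable (rulesL N C) (Nat.pair (il Γ) (Nat.pair a r)) := by
  induction Γ with
  | nil =>
    intro a r h
    have := Derivable.intro (R := rulesL N C) _ (by simp [rulesL]; exact Or.inl rfl)
      (fun i => if i = 0 then a else r) (by simpa [TL] using h) (by simp)
    simpa [Tm.eval, il] using this
  | cons φ Γ ih =>
    rintro a r ⟨a₁, r₁, h₁, h⟩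
    have := Derivable.intro (R := rulesL N C) _
      (by simp [rulesL]; exact Or.inr rfl)
      (fun i => if i = 0 then ic φ else if i = 1 then il Γ else if i = 2 then a else
        if i = 3 then a₁ else if i = 4 then r₁ else r)
      (by refine ⟨⟨φ, by simp⟩, ?_⟩; simpa using h) (by
        simp only [List.mem_cons, List.not_mem_nil, or_false, forall_eq, Tm.eval]
        simpa using ih _ _ h₁)
    simpa [Tm.eval, nm_eval, il] using this

theorem of_derL {n : ℕ} (h : Derivable (rulesL N C) n) :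
    ∃ Γ a r, n = Nat.pair (il Γ) (Nat.pair a r) ∧ TL N C Γ a r := by
  induction h with
  | intro r hr ρ hs _ ih =>
    simp only [rulesL, List.mem_cons, List.not_mem_nil, or_false] at hr
    rcases hr with rfl | rfl
    · exact ⟨[], ρ 0, ρ 1, by simp [Tm.eval, il], hs⟩
    · simp only [List.mem_cons, List.not_mem_nil, or_false, forall_eq,
        Tm.eval, Nat.pair_eq_pair] at ih
      obtain ⟨Γ, _, _, ⟨h1, rfl, rfl⟩, h4⟩ := ih
      obtain ⟨⟨φ, hφ⟩, hs⟩ := hs
      refine ⟨φ :: Γ, ρ 2, ρ 5, ?_, ρ 3, ρ 4, h4, ?_⟩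
      · simp [Tm.eval, il, h1, hφ]
      · rw [← h1, ← hφ]; exact hs

theorem ar_TL (hN : Ar (fun v => N (v 0) (v 1)))
    (hC : Ar (fun v => C (v 0) (v 1) (v 2) (v 3) (v 4) (v 5))) :
    Ar (fun v => ∃ Γ, v 0 = il Γ ∧ TL N C Γ (v 1) (v 2)) := by
  have h := Ar.derivable (rulesL N C) (by
    intro r hr
    simp only [rulesL, List.mem_cons, List.not_mem_nil, or_false] at hr
    rcases hr with rfl | rfl
    · exact hN
    · exact ar_form.and hC)
  refine (app1 h (.pair (.var 0) (.pair (.var 1) (.var 2)))).congr (fun v => ?_)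
  simp only [Tm.eval]
  constructor
  · intro h
    obtain ⟨Γ, a, r, h1, h2⟩ := of_derL h
    rw [Nat.pair_eq_pair, Nat.pair_eq_pair] at h1
    obtain ⟨h1, rfl, rfl⟩ := h1
    exact ⟨Γ, h1, h2⟩
  · rintro ⟨Γ, h1, h2⟩
    rw [h1]
    exact derL_of Γ _ _ h2

end

end Pool.Agent.TH8.Arith
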