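import Pool.Agent.TH8.Arith.Syn

/-!
# The logical axioms, and proofs
-/

set_option autoImplicit false

namespace Pool.Agent.TH8.Arith

open Pool.Agent.TH672 Pool.Agent.TH672.Form

/-! ### Replacement -/

theorem ar_sw : Ar (fun v => Sw (v 0) (v 1) (v 2) (v 3)) :=
  (Ar.eq 3 2).or ((Ar.eq 2 0).and (Ar.eq 3 1))

/-- Replacement. -/
def RepR (x y c r : ℕ) : Prop := ∃ φ ψ : Form, c = ic φ ∧ r = ic ψ ∧ Repl x y φ ψ

theorem repR_iff (x y c r : ℕ) : RepR x y c r ↔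
    ((∃ u u', Sw x y u u' ∧ c = Nat.pair 2 u ∧ r = Nat.pair 2 u') ∨
    (∃ u u' w w', (Sw x y u u' ∧ Sw x y w w') ∧
      ((c = Nat.pair 1 (Nat.pair u w) ∧ r = Nat.pair 1 (Nat.pair u' w')) ∨
      (c = Nat.pair 3 (Nat.pair u w) ∧ r = Nat.pair 3 (Nat.pair u' w')))) ∨
    (∃ u u' w w' z z', (Sw x y u u' ∧ Sw x y w w' ∧ Sw x y z z') ∧
      ((c = Nat.pair 4 (Nat.pair u (Nat.pair w z)) ∧
        r = Nat.pair 4 (Nat.pair u' (Nat.pair w' z'))) ∨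
      (c = Nat.pair 5 (Nat.pair u (Nat.pair w z)) ∧
        r = Nat.pair 5 (Nat.pair u' (Nat.pair w' z')))))) := by
  constructor
  · rintro ⟨φ, ψ, rfl, rfl, h⟩
    cases h with
    | zero h => exact Or.inl ⟨_, _, h, rfl, rfl⟩
    | eq h h' => exact Or.inr (Or.inl ⟨_, _, _, _, ⟨h, h'⟩, Or.inl ⟨rfl, rfl⟩⟩)
    | succ h h' => exact Or.inr (Or.inl ⟨_, _, _, _, ⟨h, h'⟩, Or.inr ⟨rfl, rfl⟩⟩)
    | add h h' h'' =>
      exact Or.inr (Or.inr ⟨_, _, _, _, _, _, ⟨h, h', h''⟩, Or.inl ⟨rfl, rfl⟩⟩)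
    | mul h h' h'' =>
      exact Or.inr (Or.inr ⟨_, _, _, _, _, _, ⟨h, h', h''⟩, Or.inr ⟨rfl, rfl⟩⟩)
  · rintro (⟨u, u', h, rfl, rfl⟩ | ⟨u, u', w, w', ⟨h, h'⟩, ⟨rfl, rfl⟩ | ⟨rfl, rfl⟩⟩ |
      ⟨u, u', w, w', z, z', ⟨h, h', h''⟩, ⟨rfl, rfl⟩ | ⟨rfl, rfl⟩⟩)
    · exact ⟨zero u, zero u', rfl, rfl, .zero h⟩
    · exact ⟨eq u w, eq u' w', rfl, rfl, .eq h h'⟩
    · exact ⟨succ u w, succ u' w', rfl, rfl, .succ h h'⟩
    · exact ⟨add u w z, add u' w' z', rfl, rfl, .add h h' h''⟩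
    · exact ⟨mul u w z, mul u' w' z', rfl, rfl, .mul h h' h''⟩

theorem ar_repR : Ar (fun v => RepR (v 0) (v 1) (v 2) (v 3)) := by
  -- the variables `0, 1` are `x, y`; `2, 3` are `c, r`; `5, ..., 10` are `u, u', w, w', z, z'`
  have r1 : Ar (fun v => Sw (v 0) (v 1) (v 5) (v 6)) := app4 ar_sw (.var 0) (.var 1) (.var 5)
    (.var 6)
  have r2 : Ar (fun v => Sw (v 0) (v 1) (v 7) (v 8)) := app4 ar_sw (.var 0) (.var 1) (.var 7)
    (.var 8)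
  have r3 : Ar (fun v => Sw (v 0) (v 1) (v 9) (v 10)) := app4 ar_sw (.var 0) (.var 1) (.var 9)
    (.var 10)
  have q2 : Ar (fun v => v 2 = Nat.pair 2 (v 5) ∧ v 3 = Nat.pair 2 (v 6)) :=
    ((Ar.tm (.var 2) (.pair (nm 2) (.var 5))).and (Ar.tm (.var 3) (.pair (nm 2) (.var 6)))).congr
      (fun v => by simp [nm_eval, Tm.eval])
  have q : ∀ k, Ar (fun v => v 2 = Nat.pair k (Nat.pair (v 5) (v 7)) ∧
      v 3 = Nat.pair k (Nat.pair (v 6) (v 8))) := fun k =>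
    ((Ar.tm (.var 2) (.pair (nm k) (.pair (.var 5) (.var 7)))).and
      (Ar.tm (.var 3) (.pair (nm k) (.pair (.var 6) (.var 8))))).congr
      (fun v => by simp [nm_eval, Tm.eval])
  have q' : ∀ k, Ar (fun v => v 2 = Nat.pair k (Nat.pair (v 5) (Nat.pair (v 7) (v 9))) ∧
      v 3 = Nat.pair k (Nat.pair (v 6) (Nat.pair (v 8) (v 10)))) := fun k =>
    ((Ar.tm (.var 2) (.pair (nm k) (.pair (.var 5) (.pair (.var 7) (.var 9))))).and
      (Ar.tm (.var 3) (.pair (nm k) (.pair (.var 6) (.pair (.var 8) (.var 10)))))).congr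
      (fun v => by simp [nm_eval, Tm.eval])
  have h1 := ((r1.and q2).ex 6).ex 5
  have h2 := (((((r1.and r2).and ((q 1).or (q 3))).ex 8).ex 7).ex 6).ex 5
  have h3 := (((((((r1.and (r2.and r3)).and ((q' 4).or (q' 5))).ex 10).ex 9).ex 8).ex 7).ex 6).ex 5
  refine (h1.or (h2.or h3)).congr (fun v => ?_)
  simp [repR_iff]

/-! ### The logical axioms -/

/-- The number is the code of a formula. -/
def FormR (c : ℕ) : Prop := ∃ φ, c = ic φ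

theorem ar_formR : Ar (fun v => FormR (v 0)) := ar_form

/-- The code of an implication. -/
def im (a b : ℕ) : ℕ := Nat.pair 6 (Nat.pair a b)

/-- The code of a generalization. -/
def al (x a : ℕ) : ℕ := Nat.pair 7 (Nat.pair x a)

/-- The corresponding term. -/
def tim (a b : Tm) : Tm := .pair (nm 6) (.pair a b)

/-- The corresponding term. -/
def tal (x a : Tm) : Tm := .pair (nm 7) (.pair x a)

theorem tim_eval (a b : Tm) (v : ℕ → ℕ) : (tim a b).eval v = im (a.eval v) (b.eval v) := by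
  simp [tim, im, Tm.eval, nm_eval]

theorem tal_eval (a b : Tm) (v : ℕ → ℕ) : (tal a b).eval v = al (a.eval v) (b.eval v) := by
  simp [tal, al, Tm.eval, nm_eval]

theorem ic_imp (φ ψ : Form) : ic (imp φ ψ) = im (ic φ) (ic ψ) := rfl

theorem ic_all (x : ℕ) (φ : Form) : ic (all x φ) = al x (ic φ) := rfl

/-- The relation of substitution. -/
def SubR (x y a b : ℕ) : Prop := ∃ φ : Form, a = ic φ ∧ b = ic (φ.subst x y)

theorem ar_subR : Ar (fun v => SubR (v 0) (v 1) (v 2) (v 3)) := by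
  refine (ar_sub.sub (sq [.var 2, .pair (.var 0) (.var 1), .var 3])).congr (fun v => ?_)
  simp only [sq, Tm.eval, List.getD_cons_zero, List.getD_cons_succ, Nat.unpair_pair]
  rfl

/-- The code of an element of `LogAx`. -/
def LogR (c : ℕ) : Prop := ∃ φ, c = ic φ ∧ LogAx φ

theorem logR_iff (c : ℕ) : LogR c ↔
    ((∃ a b, (FormR a ∧ FormR b) ∧ c = im a (im b a)) ∨
    (∃ a b d, (FormR a ∧ FormR b ∧ FormR d) ∧ c = im (im a (im b d)) (im (im a b) (im a d))) ∨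
    (∃ a, FormR a ∧ c = im (im (im a (Nat.pair 0 0)) (Nat.pair 0 0)) a) ∨
    (∃ x y a b, (FFr y x a ∧ SubR x y a b) ∧ c = im (al x a) b) ∨
    (∃ x a b, (NFr a x ∧ FormR b) ∧ c = im (al x (im a b)) (im a (al x b))) ∨
    (∃ x, c = Nat.pair 1 (Nat.pair x x)) ∨
    (∃ x y a b, RepR x y a b ∧ c = im (Nat.pair 1 (Nat.pair x y)) (im a b))) := by
  constructor
  · rintro ⟨φ, rfl, h⟩
    cases h with
    | k φ ψ => exact Or.inl ⟨_, _, ⟨⟨φ, rfl⟩, ⟨ψ, rfl⟩⟩, rfl⟩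
    | s φ ψ χ => exact Or.inr (Or.inl ⟨_, _, _, ⟨⟨φ, rfl⟩, ⟨ψ, rfl⟩, ⟨χ, rfl⟩⟩, rfl⟩)
    | dn φ => exact Or.inr (Or.inr (Or.inl ⟨_, ⟨φ, rfl⟩, rfl⟩))
    | inst x y φ h =>
      exact Or.inr (Or.inr (Or.inr (Or.inl ⟨x, y, _, _, ⟨⟨φ, rfl, h⟩, ⟨φ, rfl, rfl⟩⟩, rfl⟩)))
    | dist x φ ψ h =>
      exact Or.inr (Or.inr (Or.inr (Or.inr (Or.inl ⟨x, _, _, ⟨⟨φ, rfl, h⟩, ⟨ψ, rfl⟩⟩, rfl⟩))))
    | refl x => exact Or.inr (Or.inr (Or.inr (Or.inr (Or.inr (Or.inl ⟨x, rfl⟩)))))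
    | repl x y φ ψ h =>
      exact Or.inr (Or.inr (Or.inr (Or.inr (Or.inr (Or.inr
        ⟨x, y, _, _, ⟨φ, ψ, rfl, rfl, h⟩, rfl⟩)))))
  · rintro (⟨_, _, ⟨⟨φ, rfl⟩, ⟨ψ, rfl⟩⟩, rfl⟩ | ⟨_, _, _, ⟨⟨φ, rfl⟩, ⟨ψ, rfl⟩, ⟨χ, rfl⟩⟩, rfl⟩ |
      ⟨_, ⟨φ, rfl⟩, rfl⟩ | ⟨x, y, _, _, ⟨⟨φ, rfl, h⟩, ⟨ψ, h1, rfl⟩⟩, rfl⟩ |
      ⟨x, _, _, ⟨⟨φ, rfl, h⟩, ⟨ψ, rfl⟩⟩, rfl⟩ | ⟨x, rfl⟩ | ⟨x, y, _, _, ⟨φ, ψ, rfl, rfl, h⟩, rfl⟩)
    · exact ⟨_, rfl, .k φ ψ⟩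
    · exact ⟨_, rfl, .s φ ψ χ⟩
    · exact ⟨_, rfl, .dn φ⟩
    · cases ic_inj h1
      exact ⟨_, rfl, .inst x y φ h⟩
    · exact ⟨_, rfl, .dist x φ ψ h⟩
    · exact ⟨_, rfl, .refl x⟩
    · exact ⟨_, rfl, .repl x y φ ψ h⟩

theorem ar_logR : Ar (fun v => LogR (v 0)) := by
  have f : ∀ i, Ar (fun v => FormR (v i)) := fun i => app1 ar_formR (.var i)
  have g1 := ((f 1).and (f 2)).and (Ar.tm (.var 0) (tim (.var 1) (tim (.var 2) (.var 1))))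
  have h1 := (g1.ex 2).ex 1
  have g2 := ((f 1).and ((f 2).and (f 3))).and (Ar.tm (.var 0)
    (tim (tim (.var 1) (tim (.var 2) (.var 3))) (tim (tim (.var 1) (.var 2))
      (tim (.var 1) (.var 3)))))
  have h2 := ((g2.ex 3).ex 2).ex 1
  have g3 := (f 1).and (Ar.tm (.var 0) (tim (tim (tim (.var 1) (.pair (nm 0) (nm 0)))
    (.pair (nm 0) (nm 0))) (.var 1)))
  have h3 := g3.ex 1
  have g4 := ((app3 ar_ffr (.var 2) (.var 1) (.var 3)).and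
    (app4 ar_subR (.var 1) (.var 2) (.var 3) (.var 4))).and
    (Ar.tm (.var 0) (tim (tal (.var 1) (.var 3)) (.var 4)))
  have h4 := (((g4.ex 4).ex 3).ex 2).ex 1
  have g5 := ((app2 ar_nfr (.var 2) (.var 1)).and (f 3)).and
    (Ar.tm (.var 0) (tim (tal (.var 1) (tim (.var 2) (.var 3)))
      (tim (.var 2) (tal (.var 1) (.var 3)))))
  have h5 := ((g5.ex 3).ex 2).ex 1
  have h6 := (Ar.tm (.var 0) (.pair (nm 1) (.pair (.var 1) (.var 1)))).ex 1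
  have g7 := (app4 ar_repR (.var 1) (.var 2) (.var 3) (.var 4)).and
    (Ar.tm (.var 0) (tim (.pair (nm 1) (.pair (.var 1) (.var 2))) (tim (.var 3) (.var 4))))
  have h7 := (((g7.ex 4).ex 3).ex 2).ex 1
  refine (h1.or (h2.or (h3.or (h4.or (h5.or (h6.or h7)))))).congr (fun v => ?_)
  rw [logR_iff]
  simp [tim_eval, tal_eval, Tm.eval, nm_eval]

/-! ### Lists -/

/-- Recursion for predicates on lists. -/
theorem ar_posL (P : List Form → ℕ → Prop) (C : ℕ → ℕ → ℕ → Prop) (hnil : ∀ a, P [] a)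
    (hcons : ∀ φ Γ a, P (φ :: Γ) a ↔ C (ic φ) (il Γ) a ∧ P Γ a)
    (hC : Ar (fun v => C (v 0) (v 1) (v 2))) :
    Ar (fun v => ∃ Γ, v 0 = il Γ ∧ P Γ (v 1)) := by
  have h := ar_TL (N := fun _ _ => True) (C := fun c l a a₁ _ _ => C c l a ∧ a₁ = a) ar_true
    (hC.and (Ar.eq 3 2))
  refine (h.sub (sq [.var 0, .var 1, .zero])).congr (fun v => ?_)
  simp only [sq, Tm.eval, List.getD_cons_zero, List.getD_cons_succ]
  refine exists_congr (fun Γ => and_congr_right (fun hv => ?_))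
  clear hv
  generalize v 1 = a
  have key : ∀ (Γ : List Form) (a r : ℕ),
      TL (fun _ _ => True) (fun c l a a₁ _ _ => C c l a ∧ a₁ = a) Γ a r ↔ P Γ a := by
    intro Γ
    induction Γ with
    | nil => intro a r; exact ⟨fun _ => hnil a, fun _ => trivial⟩
    | cons φ Γ ih =>
      intro a r
      simp only [TL, ih, hcons]
      constructor
      · rintro ⟨a₁, _, h1, h2, rfl⟩
        exact ⟨h2, h1⟩
      · rintro ⟨h1, h2⟩
        exact ⟨a, 0, h2, h1, rfl⟩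
  exact key Γ a 0

/-- The list and a member. -/
def MemR (l c : ℕ) : Prop := ∃ Γ, l = il Γ ∧ ∃ φ ∈ Γ, c = ic φ

/-- The list and a formula that is not a member. -/
def NMemR (l c : ℕ) : Prop := ∃ Γ, l = il Γ ∧ ∀ φ ∈ Γ, ¬ c = ic φ

theorem ar_nmemR : Ar (fun v => NMemR (v 0) (v 1)) := by
  refine ar_posL (fun Γ a => ∀ φ ∈ Γ, ¬ a = ic φ) (fun c _ a => ¬ a = c) (by simp) (by simp)
    (Ar.eq 2 0).not

/-- The number is the code of a list of formulas. -/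
def ListR (l : ℕ) : Prop := ∃ Γ, l = il Γ

theorem ar_listR : Ar (fun v => ListR (v 0)) :=
  (ar_posL (fun _ _ => True) (fun _ _ _ => True) (by simp) (by simp) ar_true).congr
    (fun v => by simp [ListR])

theorem ar_memR : Ar (fun v => MemR (v 0) (v 1)) := by
  refine (ar_listR.and ar_nmemR.not).congr (fun v => ?_)
  constructor
  · rintro ⟨⟨Γ, h⟩, h'⟩
    refine ⟨Γ, h, ?_⟩
    by_contra h2
    push Not at h2
    exact h' ⟨Γ, h, h2⟩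
  · rintro ⟨Γ, h, φ, h1, h2⟩
    refine ⟨⟨Γ, h⟩, ?_⟩
    rintro ⟨Δ, h3, h4⟩
    rw [h] at h3
    cases il_inj h3
    exact h4 φ h1 h2

theorem memR_iff (Γ : List Form) (φ : Form) : MemR (il Γ) (ic φ) ↔ φ ∈ Γ := by
  constructor
  · rintro ⟨Δ, h, ψ, h1, h2⟩
    rw [il_inj h, ic_inj h2]; exact h1
  · intro h
    exact ⟨Γ, rfl, φ, h, rfl⟩

/-- The relation `Step`. -/
def StepR (g p c : ℕ) : Prop :=
  MemR g c ∨ LogR c ∨ (∃ b, MemR p b ∧ MemR p (im b c)) ∨ ∃ b, MemR p b ∧ ∃ x, c = al x b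

theorem stepR_iff (Γ π : List Form) (φ : Form) :
    StepR (il Γ) (il π) (ic φ) ↔ Step Γ π φ := by
  unfold StepR Step
  rw [memR_iff]
  refine or_congr Iff.rfl (or_congr ?_ (or_congr ?_ ?_))
  · constructor
    · rintro ⟨ψ, h, h'⟩
      rw [ic_inj h]; exact h'
    · intro h
      exact ⟨φ, rfl, h⟩
  · constructor
    · rintro ⟨b, ⟨Δ, h1, ψ, h2, rfl⟩, h3⟩
      refine ⟨ψ, by rw [il_inj h1]; exact h2, ?_⟩
      rwa [← ic_imp, memR_iff] at h3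
    · rintro ⟨ψ, h1, h2⟩
      exact ⟨ic ψ, (memR_iff _ _).2 h1, by rw [← ic_imp, memR_iff]; exact h2⟩
  · constructor
    · rintro ⟨b, ⟨Δ, h1, ψ, h2, rfl⟩, x, h3⟩
      exact ⟨ψ, by rw [il_inj h1]; exact h2, x, ic_inj (by rw [h3, ic_all])⟩
    · rintro ⟨ψ, h1, x, rfl⟩
      exact ⟨ic ψ, (memR_iff _ _).2 h1, x, rfl⟩

theorem ar_stepR : Ar (fun v => StepR (v 0) (v 1) (v 2)) := by
  have h1 := app2 ar_memR (.var 0) (.var 2)
  have h2 := app1 ar_logR (.var 2)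
  have h3 := ((app2 ar_memR (.var 1) (.var 3)).and (app2 ar_memR (.var 1)
    (tim (.var 3) (.var 2)))).ex 3
  have h4 := (((app2 ar_memR (.var 1) (.var 3)).and ((Ar.tm (.var 2)
    (tal (.var 4) (.var 3))).ex 4))).ex 3
  refine (h1.or (h2.or (h3.or h4))).congr (fun v => ?_)
  simp [StepR, Tm.eval, tim_eval, tal_eval]

/-- The list with the code `p` is a proof from the list with the code `g`. -/
def ProofR (p g : ℕ) : Prop := ∃ Γ π, g = il Γ ∧ p = il π ∧ IsProof Γ π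

theorem ar_proofR : Ar (fun v => ProofR (v 0) (v 1)) := by
  have h := ar_posL (fun π a => ∀ Γ, a = il Γ → IsProof Γ π)
    (fun c l a => ListR a → StepR a l c) (by simp [IsProof]) (fun φ π a => ?_)
    ((app1 ar_listR (.var 2)).imp (app3 ar_stepR (.var 2) (.var 1) (.var 0)))
  · refine ((app1 ar_listR (.var 1)).and h).congr (fun v => ?_)
    simp only [Tm.eval, ProofR]
    constructor
    · rintro ⟨⟨Γ, h1⟩, π, h2, h3⟩
      exact ⟨Γ, π, h1, h2, h3 Γ h1⟩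
    · rintro ⟨Γ, π, h1, h2, h3⟩
      refine ⟨⟨Γ, h1⟩, π, h2, fun Δ h4 => ?_⟩
      rw [h1] at h4
      rw [← il_inj h4]; exact h3
  · simp only [IsProof]
    constructor
    · intro h
      refine ⟨fun ⟨Γ, hΓ⟩ => ?_, fun Γ hΓ => (h Γ hΓ).1⟩
      rw [hΓ, stepR_iff]
      exact (h Γ hΓ).2
    · rintro ⟨h1, h2⟩ Γ rfl
      exact ⟨h2 Γ rfl, (stepR_iff _ _ _).1 (h1 ⟨Γ, rfl⟩)⟩

end Pool.Agent.TH8.Arith
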