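import Pool.Agent.TH8.Arith.Base

/-!
# Convenient forms of the recursion theorems
-/

set_option autoImplicit false

namespace Pool.Agent.TH8.Arith

open Pool.Agent.TH672 Pool.Agent.TH672.Form

/-- Equations with numerals. -/
theorem ar_eqn (x n : ℕ) : Ar (fun v => v x = n) :=
  (Ar.tm (.var x) (nm n)).congr (fun v => by simp [Tm.eval, nm_eval])

/-- Recursion for predicates. -/
theorem ar_pos (P : Form → ℕ → Prop) (A : ℕ → ℕ → Prop) (C D : ℕ → ℕ → ℕ → Prop)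
    (hat : ∀ φ, Atomic φ → ∀ a, P φ a ↔ A (ic φ) a)
    (himp : ∀ φ ψ a, P (imp φ ψ) a ↔ P φ a ∧ P ψ a)
    (hall : ∀ x φ a, P (all x φ) a ↔ C x (ic φ) a ∨ (D x (ic φ) a ∧ P φ a))
    (hA : Ar (fun v => A (v 0) (v 1))) (hC : Ar (fun v => C (v 0) (v 1) (v 2)))
    (hD : Ar (fun v => D (v 0) (v 1) (v 2))) :
    Ar (fun v => ∃ φ, v 0 = ic φ ∧ P φ (v 1)) := by
  have h := ar_TF (A := fun c a r => r = 0 ∨ A c a)
    (I := fun _ _ a a₁ r₁ a₂ r₂ r => r = 0 ∨ ((a₁ = a ∧ a₂ = a) ∧ (¬ r₁ = 0 ∧ ¬ r₂ = 0)))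
    (L := fun x c a a₁ r₁ r => r = 0 ∨ C x c a ∨ (D x c a ∧ (a₁ = a ∧ ¬ r₁ = 0)))
    ((ar_eqn 2 0).or hA)
    ((ar_eqn 7 0).or (((Ar.eq 3 2).and (Ar.eq 5 2)).and ((ar_eqn 4 0).not.and (ar_eqn 6 0).not)))
    ((ar_eqn 5 0).or (hC.or (hD.and ((Ar.eq 3 2).and (ar_eqn 4 0).not))))
  refine (h.sub (sq [.var 0, .var 1, nm 1])).congr (fun v => ?_)
  simp only [sq, Tm.eval, List.getD_cons_zero, List.getD_cons_succ, nm_eval]
  refine exists_congr (fun φ => and_congr_right (fun _ => ?_))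
  have key : ∀ (φ : Form) (a r : ℕ), TF (fun c a r => r = 0 ∨ A c a)
      (fun _ _ a a₁ r₁ a₂ r₂ r => r = 0 ∨ ((a₁ = a ∧ a₂ = a) ∧ (¬ r₁ = 0 ∧ ¬ r₂ = 0)))
      (fun x c a a₁ r₁ r => r = 0 ∨ C x c a ∨ (D x c a ∧ (a₁ = a ∧ ¬ r₁ = 0))) φ a r ↔
      (r = 0 ∨ P φ a) := by
    intro φ
    induction φ with
    | imp φ ψ ih₁ ih₂ =>
      intro a r
      simp only [TF, ih₁, ih₂, himp]
      constructor
      · rintro ⟨a₁, r₁, a₂, r₂, h1, h2, h3⟩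
        rcases h3 with h3 | ⟨⟨h4, h5⟩, h6, h7⟩
        · exact Or.inl h3
        · rw [h4] at h1
          rw [h5] at h2
          exact Or.inr ⟨h1.resolve_left h6, h2.resolve_left h7⟩
      · rintro (h | ⟨h1, h2⟩)
        · exact ⟨0, 0, 0, 0, Or.inl rfl, Or.inl rfl, Or.inl h⟩
        · exact ⟨a, 1, a, 1, Or.inr h1, Or.inr h2, Or.inr ⟨⟨rfl, rfl⟩, one_ne_zero, one_ne_zero⟩⟩
    | all x φ ih =>
      intro a r
      simp only [TF, ih, hall]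
      constructor
      · rintro ⟨a₁, r₁, h1, h2⟩
        rcases h2 with h2 | h2 | ⟨h3, h4, h5⟩
        · exact Or.inl h2
        · exact Or.inr (Or.inl h2)
        · rw [h4] at h1
          exact Or.inr (Or.inr ⟨h3, h1.resolve_left h5⟩)
      · rintro (h | h | ⟨h1, h2⟩)
        · exact ⟨0, 0, Or.inl rfl, Or.inl h⟩
        · exact ⟨0, 0, Or.inl rfl, Or.inr (Or.inl h)⟩
        · exact ⟨a, 1, Or.inr h2, Or.inr (Or.inr ⟨h1, rfl, one_ne_zero⟩)⟩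
    | _ =>
      intro a r
      simp only [TF]
      rw [hat _ (by exact trivial)]
  rw [key]
  simp

/-- Recursion for functions. -/
theorem ar_fun (f : Form → ℕ → ℕ) (A : ℕ → ℕ → ℕ → Prop) (I : ℕ → ℕ → ℕ → ℕ → ℕ → ℕ → Prop)
    (L : ℕ → ℕ → ℕ → ℕ → ℕ → Prop)
    (hat : ∀ φ, Atomic φ → ∀ a r, r = f φ a ↔ A (ic φ) a r)
    (himp : ∀ φ ψ a r, r = f (imp φ ψ) a ↔ I (ic φ) (ic ψ) a (f φ a) (f ψ a) r)
    (hall : ∀ x φ a r, r = f (all x φ) a ↔ L x (ic φ) a (f φ a) r)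
    (hA : Ar (fun v => A (v 0) (v 1) (v 2)))
    (hI : Ar (fun v => I (v 0) (v 1) (v 2) (v 3) (v 4) (v 5)))
    (hL : Ar (fun v => L (v 0) (v 1) (v 2) (v 3) (v 4))) :
    Ar (fun v => ∃ φ, v 0 = ic φ ∧ v 2 = f φ (v 1)) := by
  have h := ar_TF (A := A)
    (I := fun c₁ c₂ a a₁ r₁ a₂ r₂ r => (a₁ = a ∧ a₂ = a) ∧ I c₁ c₂ a r₁ r₂ r)
    (L := fun x c a a₁ r₁ r => a₁ = a ∧ L x c a r₁ r) hA
    (((Ar.eq 3 2).and (Ar.eq 5 2)).and
      (hI.sub (sq [.var 0, .var 1, .var 2, .var 4, .var 6, .var 7])))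
    ((Ar.eq 3 2).and (hL.sub (sq [.var 0, .var 1, .var 2, .var 4, .var 5])))
  refine h.congr (fun v => exists_congr (fun φ => and_congr_right (fun hv => ?_)))
  clear hv
  generalize v 1 = a
  generalize v 2 = r
  induction φ generalizing a r with
  | imp φ ψ ih₁ ih₂ =>
    simp only [TF, ih₁, ih₂, himp]
    constructor
    · rintro ⟨a₁, r₁, a₂, r₂, h1, h2, ⟨h3, h4⟩, h5⟩
      rw [h1, h2, h3, h4] at h5
      exact h5
    · intro h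
      exact ⟨a, _, a, _, rfl, rfl, ⟨rfl, rfl⟩, h⟩
  | all x φ ih =>
    simp only [TF, ih, hall]
    constructor
    · rintro ⟨a₁, r₁, h1, h2, h3⟩
      rw [h1, h2] at h3
      exact h3
    · intro h
      exact ⟨a, _, rfl, rfl, h⟩
  | _ =>
    simp only [TF]
    rw [hat _ (by exact trivial)]

end Pool.Agent.TH8.Arith
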