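import Pool.Agent.TH8.Arith.Log

/-!
# Strings and their lengths
-/

set_option autoImplicit false

namespace Pool.Agent.TH8.Arith

open Pool.Agent.TH672 Pool.Agent.TH672.Form

/-- Append a string to a number in dyadic notation. -/
def app (n : ℕ) (w : List Bool) : ℕ := w.foldl (fun n b => 2 * n + if b then 2 else 1) n

theorem app_zero (w : List Bool) : app 0 w = num w := rfl

theorem app_nil (n : ℕ) : app n [] = n := rfl

theorem app_append (n : ℕ) (u w : List Bool) : app n (u ++ w) = app (app n u) w :=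
  List.foldl_append

theorem app_cons (n : ℕ) (b : Bool) (w : List Bool) :
    app n (b :: w) = app (2 * n + if b then 2 else 1) w := rfl

theorem ar_dig (b : Bool) : Ar (fun v => v 1 = 2 * v 0 + if b then 2 else 1) := by
  have h : ∀ k, Ar (fun v => ∃ u, v 0 + v 0 = u ∧ v 1 = u + k) := by
    intro k
    have h1 : ∀ k, ∃ t : Tm, ∀ v, t.eval v = v 2 + k := by
      intro k
      induction k with
      | zero => exact ⟨.var 2, fun v => rfl⟩
      | succ k ih =>
        obtain ⟨t, ht⟩ := ih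
        exact ⟨.succ t, fun v => by simp [Tm.eval, ht, add_assoc]⟩
    obtain ⟨t, ht⟩ := h1 k
    refine (((Ar.addRel 0 0 2).and (Ar.tm (.var 1) t)).ex 2).congr (fun v => ?_)
    simp [ht, Tm.eval]
  refine (h (if b then 2 else 1)).congr (fun v => ?_)
  constructor
  · rintro ⟨u, rfl, h⟩
    rw [h, two_mul]
  · intro h
    exact ⟨_, rfl, by rw [h, two_mul]⟩

theorem ar_app (w : List Bool) : Ar (fun v => v 1 = app (v 0) w) := by
  induction w with
  | nil => exact Ar.eq 1 0
  | cons b w ih =>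
    have h1 : Ar (fun v => v 2 = 2 * v 0 + if b then 2 else 1) :=
      (app2 (R := fun x y => y = 2 * x + if b then 2 else 1) (ar_dig b) (.var 0) (.var 2))
    have h2 : Ar (fun v => v 1 = app (v 2) w) :=
      app2 (R := fun x y => y = app x w) ih (.var 2) (.var 1)
    refine ((h1.and h2).ex 2).congr (fun v => ?_)
    simp [app_cons]

/-- `v j = app (v i) w`. -/
theorem ar_app' (w : List Bool) (i j : ℕ) : Ar (fun v => v j = app (v i) w) :=
  app2 (R := fun x y => y = app x w) (ar_app w) (.var i) (.var j)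

/-! ### Variables -/

/-- The rules. -/
def rulesV : List Rule :=
  [⟨.pair (.var 0) (.pair .zero (.var 1)), [], fun v => v 1 = app (v 0) [false]⟩,
   ⟨.pair (.var 0) (.pair (.succ (.var 1)) (.var 2)), [.pair (.var 3) (.pair (.var 1) (.var 2))],
    fun v => v 3 = app (v 0) [true]⟩]

theorem varStr_succ (x : ℕ) : varStr (x + 1) = true :: varStr x := by
  simp [varStr, List.replicate_succ]

theorem derV_of (x : ℕ) : ∀ w r, r = app w (varStr x) →
    Derivable rulesV (Nat.pair w (Nat.pair x r)) := by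
  induction x with
  | zero =>
    rintro w r rfl
    have := Derivable.intro (R := rulesV) _ (by simp [rulesV]; exact Or.inl rfl)
      (fun i => if i = 0 then w else app w (varStr 0)) (by simp; rfl) (by simp)
    simpa [Tm.eval] using this
  | succ x ih =>
    rintro w r rfl
    have := Derivable.intro (R := rulesV) _ (by simp [rulesV]; exact Or.inr rfl)
      (fun i => if i = 0 then w else if i = 1 then x else if i = 2 then app w (varStr (x + 1))
        else app w [true]) (by simp) (by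
        simp only [List.mem_cons, List.not_mem_nil, or_false, forall_eq, Tm.eval]
        simpa using ih (app w [true]) _ (by rw [varStr_succ]; rfl))
    simpa [Tm.eval] using this

theorem of_derV {n : ℕ} (h : Derivable rulesV n) :
    ∃ w x, n = Nat.pair w (Nat.pair x (app w (varStr x))) := by
  induction h with
  | intro r hr ρ hs _ ih =>
    simp only [rulesV, List.mem_cons, List.not_mem_nil, or_false] at hr
    rcases hr with rfl | rfl
    · exact ⟨ρ 0, 0, by simp only [Tm.eval] at hs ⊢; rw [hs]; rfl⟩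
    · simp only [List.mem_cons, List.not_mem_nil, or_false, forall_eq,
        Tm.eval, Nat.pair_eq_pair] at ih
      obtain ⟨_, x, rfl, rfl, h3⟩ := ih
      refine ⟨ρ 0, ρ 1 + 1, ?_⟩
      simp only [Tm.eval]
      rw [h3, hs, varStr_succ]; rfl

/-- `r` is `w` followed by the string of the variable `x`. -/
def VarR (w x r : ℕ) : Prop := r = app w (varStr x)

theorem ar_varR : Ar (fun v => VarR (v 0) (v 1) (v 2)) := by
  have h := Ar.derivable rulesV (by
    intro r hr
    simp only [rulesV, List.mem_cons, List.not_mem_nil, or_false] at hr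
    rcases hr with rfl | rfl
    · exact ar_app' _ _ _
    · exact ar_app' _ _ _)
  refine (app1 h (.pair (.var 0) (.pair (.var 1) (.var 2)))).congr (fun v => ?_)
  simp only [Tm.eval]
  constructor
  · intro h
    obtain ⟨w, x, h1⟩ := of_derV h
    rw [Nat.pair_eq_pair, Nat.pair_eq_pair] at h1
    obtain ⟨rfl, rfl, h1⟩ := h1
    exact h1
  · intro h
    exact derV_of _ _ _ h

theorem ar_varR' (i j k : ℕ) : Ar (fun v => VarR (v i) (v j) (v k)) :=
  app3 ar_varR (.var i) (.var j) (.var k)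

/-! ### Formulas -/

/-- The string of an atomic formula. -/
def StrAt (c a r : ℕ) : Prop :=
  (c = Nat.pair 0 0 ∧ r = app a [false, false, false]) ∨
  (∃ x w, (c = Nat.pair 2 x ∧ w = app a [false, true, false]) ∧ VarR w x r) ∨
  (∃ x y w w', ((c = Nat.pair 1 (Nat.pair x y) ∧ w = app a [false, false, true]) ∨
    (c = Nat.pair 3 (Nat.pair x y) ∧ w = app a [false, true, true])) ∧ VarR w x w' ∧
    VarR w' y r) ∨
  (∃ x y z w w' w'', ((c = Nat.pair 4 (Nat.pair x (Nat.pair y z)) ∧
      w = app a [true, false, false]) ∨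
    (c = Nat.pair 5 (Nat.pair x (Nat.pair y z)) ∧ w = app a [true, false, true])) ∧
    VarR w x w' ∧ VarR w' y w'' ∧ VarR w'' z r)

theorem strAt_ic {φ : Form} (hφ : Atomic φ) (a r : ℕ) :
    StrAt (ic φ) a r ↔ r = app a φ.str := by
  constructor
  · rintro (⟨h, rfl⟩ | ⟨x, w, ⟨h, rfl⟩, h1⟩ | ⟨x, y, w, w', h, h1, h2⟩ |
      ⟨x, y, z, w, w', w'', h, h1, h2, h3⟩)
    · rw [ic_inj (show ic φ = ic bot from h)]; rfl
    · rw [ic_inj (show ic φ = ic (zero x) from h), h1]
      simp only [Form.str, app_append]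
    · rcases h with ⟨h, rfl⟩ | ⟨h, rfl⟩
      · rw [ic_inj (show ic φ = ic (eq x y) from h), h2, h1]
        simp only [Form.str, app_append]
      · rw [ic_inj (show ic φ = ic (succ x y) from h), h2, h1]
        simp only [Form.str, app_append]
    · rcases h with ⟨h, rfl⟩ | ⟨h, rfl⟩
      · rw [ic_inj (show ic φ = ic (add x y z) from h), h3, h2, h1]
        simp only [Form.str, app_append]
      · rw [ic_inj (show ic φ = ic (mul x y z) from h), h3, h2, h1]
        simp only [Form.str, app_append]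
  · rintro rfl
    cases φ with
    | bot => exact Or.inl ⟨rfl, rfl⟩
    | zero x => exact Or.inr (Or.inl ⟨x, _, ⟨rfl, rfl⟩, by simp only [VarR, Form.str, app_append]⟩)
    | eq x y =>
      exact Or.inr (Or.inr (Or.inl ⟨x, y, _, _, Or.inl ⟨rfl, rfl⟩, rfl,
        by simp only [VarR, Form.str, app_append]⟩))
    | succ x y =>
      exact Or.inr (Or.inr (Or.inl ⟨x, y, _, _, Or.inr ⟨rfl, rfl⟩, rfl,
        by simp only [VarR, Form.str, app_append]⟩))
    | add x y z =>
      exact Or.inr (Or.inr (Or.inr ⟨x, y, z, _, _, _, Or.inl ⟨rfl, rfl⟩, rfl, rfl,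
        by simp only [VarR, Form.str, app_append]⟩))
    | mul x y z =>
      exact Or.inr (Or.inr (Or.inr ⟨x, y, z, _, _, _, Or.inr ⟨rfl, rfl⟩, rfl, rfl,
        by simp only [VarR, Form.str, app_append]⟩))
    | imp _ _ => exact hφ.elim
    | all _ _ => exact hφ.elim

theorem ar_strAt : Ar (fun v => StrAt (v 0) (v 1) (v 2)) := by
  -- `3, 4, 5` are `x, y, z`; `6, 7, 8` are `w, w', w''`
  have c0 : Ar (fun v => v 0 = Nat.pair 0 0) :=
    (Ar.tm (.var 0) (.pair (nm 0) (nm 0))).congr (fun v => by simp [nm_eval, Tm.eval])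
  have c2 : Ar (fun v => v 0 = Nat.pair 2 (v 3)) :=
    (Ar.tm (.var 0) (.pair (nm 2) (.var 3))).congr (fun v => by simp [nm_eval, Tm.eval])
  have c1 : ∀ k, Ar (fun v => v 0 = Nat.pair k (Nat.pair (v 3) (v 4))) := fun k =>
    (Ar.tm (.var 0) (.pair (nm k) (.pair (.var 3) (.var 4)))).congr
      (fun v => by simp [nm_eval, Tm.eval])
  have c4 : ∀ k, Ar (fun v => v 0 = Nat.pair k (Nat.pair (v 3) (Nat.pair (v 4) (v 5)))) :=
    fun k => (Ar.tm (.var 0) (.pair (nm k) (.pair (.var 3) (.pair (.var 4) (.var 5))))).congr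
      (fun v => by simp [nm_eval, Tm.eval])
  have g0 := c0.and (ar_app' [false, false, false] 1 2)
  have g1 := (c2.and (ar_app' [false, true, false] 1 6)).and (ar_varR' 6 3 2)
  have g2 := (((c1 1).and (ar_app' [false, false, true] 1 6)).or
    ((c1 3).and (ar_app' [false, true, true] 1 6))).and ((ar_varR' 6 3 7).and (ar_varR' 7 4 2))
  have g3 := (((c4 4).and (ar_app' [true, false, false] 1 6)).or
    ((c4 5).and (ar_app' [true, false, true] 1 6))).and ((ar_varR' 6 3 7).and
      ((ar_varR' 7 4 8).and (ar_varR' 8 5 2)))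
  refine (g0.or (((g1.ex 6).ex 3).or (((((g2.ex 7).ex 6).ex 4).ex 3).or
    ((((((g3.ex 8).ex 7).ex 6).ex 5).ex 4).ex 3)))).congr (fun v => ?_)
  simp [StrAt]

/-- The string of a formula. -/
def StrR (c a r : ℕ) : Prop := ∃ φ : Form, c = ic φ ∧ r = app a φ.str

theorem ar_strR : Ar (fun v => StrR (v 0) (v 1) (v 2)) := by
  have h := ar_TF (A := StrAt)
    (I := fun _ _ a a₁ r₁ a₂ r₂ r => a₁ = app a [true, true, false] ∧ a₂ = r₁ ∧ r = r₂)
    (L := fun x _ a a₁ r₁ r => (∃ w, w = app a [true, true, true] ∧ VarR w x a₁) ∧ r = r₁)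
    ar_strAt ((ar_app' [true, true, false] 2 3).and ((Ar.eq 5 4).and (Ar.eq 7 6)))
    (((((ar_app' [true, true, true] 2 6).and (ar_varR' 6 0 3)).ex 6).congr (fun v => by simp)).and (Ar.eq 5 4))
  refine h.congr (fun v => exists_congr (fun φ => and_congr_right (fun hv => ?_)))
  clear hv
  generalize v 1 = a
  generalize v 2 = r
  induction φ generalizing a r with
  | imp φ ψ ih₁ ih₂ =>
    simp only [TF, ih₁, ih₂]
    constructor
    · rintro ⟨_, _, _, _, h1, h2, rfl, rfl, rfl⟩
      simp only [Form.str, app_append, h2, h1]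
    · rintro rfl
      exact ⟨_, _, _, _, rfl, rfl, rfl, rfl, by simp only [Form.str, app_append]⟩
  | all x φ ih =>
    simp only [TF, ih]
    constructor
    · rintro ⟨_, _, h1, ⟨_, rfl, h2⟩, rfl⟩
      simp only [Form.str, app_append, h1]
      rw [h2]
    · rintro rfl
      exact ⟨_, _, rfl, ⟨_, rfl, rfl⟩, by simp only [Form.str, app_append]⟩
  | _ =>
    simp only [TF]
    rw [strAt_ic (by exact trivial)]

/-- The string of a list of formulas. -/
def StrLR (l a r : ℕ) : Prop := ∃ Γ : List Form, l = il Γ ∧ r = app a (strs Γ)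

theorem ar_strLR : Ar (fun v => StrLR (v 0) (v 1) (v 2)) := by
  have h := ar_TL (N := fun a r => r = a) (C := fun c _ a a₁ r₁ r => StrR c a a₁ ∧ r = r₁)
    (Ar.eq 1 0) ((app3 ar_strR (.var 0) (.var 2) (.var 3)).and (Ar.eq 5 4))
  refine h.congr (fun v => exists_congr (fun Γ => and_congr_right (fun hv => ?_)))
  clear hv
  generalize v 1 = a
  generalize v 2 = r
  induction Γ generalizing a r with
  | nil => exact Iff.rfl
  | cons φ Γ ih =>
    simp only [TL, ih]
    have : strs (φ :: Γ) = φ.str ++ strs Γ := rfl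
    rw [this, app_append]
    constructor
    · rintro ⟨_, _, h1, ⟨ψ, h2, rfl⟩, rfl⟩
      rw [ic_inj h2]; exact h1
    · rintro rfl
      exact ⟨_, _, rfl, ⟨φ, rfl, rfl⟩, rfl⟩

/-! ### Lengths -/

theorem ar_sum3 (i j k l n : ℕ) : Ar (fun v => v l = v i + v j + v k + n) := by
  let m := i + j + k + l + 1
  have h1 : ∀ k, ∃ t : Tm, ∀ v, t.eval v = v (m + 1) + k := by
    intro k
    induction k with
    | zero => exact ⟨.var (m + 1), fun v => rfl⟩
    | succ k ih =>
      obtain ⟨t, ht⟩ := ih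
      exact ⟨.succ t, fun v => by simp [Tm.eval, ht, add_assoc]⟩
  obtain ⟨t, ht⟩ := h1 n
  have h := (((Ar.addRel i j m).and (Ar.addRel m k (m + 1))).and (Ar.tm (.var l) t))
  refine ((h.ex (m + 1)).ex m).congr (fun v => ?_)
  have n1 : m ≠ i := by omega
  have n2 : m ≠ j := by omega
  have n3 : m ≠ k := by omega
  have n4 : m ≠ l := by omega
  have n5 : m + 1 ≠ i := by omega
  have n6 : m + 1 ≠ j := by omega
  have n7 : m + 1 ≠ k := by omega
  have n8 : m + 1 ≠ l := by omega
  simp [ht, Tm.eval, n1.symm, n2.symm, n3.symm, n4.symm, n5.symm, n6.symm,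
    n7.symm, n8.symm]

/-- The length of the string of an atomic formula. -/
def LenAt (c r : ℕ) : Prop :=
  (c = Nat.pair 0 0 ∧ r = 3) ∨ (∃ x, c = Nat.pair 2 x ∧ r = x + x * 0 + x * 0 + 4) ∨
  (∃ x y, (c = Nat.pair 1 (Nat.pair x y) ∨ c = Nat.pair 3 (Nat.pair x y)) ∧ r = x + y + 5) ∨
  (∃ x y z, (c = Nat.pair 4 (Nat.pair x (Nat.pair y z)) ∨
    c = Nat.pair 5 (Nat.pair x (Nat.pair y z))) ∧ r = x + y + z + 6)

theorem varStr_length (x : ℕ) : (varStr x).length = x + 1 := by simp [varStr]

theorem lenAt_ic {φ : Form} (hφ : Atomic φ) (r : ℕ) : LenAt (ic φ) r ↔ r = φ.str.length := by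
  constructor
  · rintro (⟨h, rfl⟩ | ⟨x, h, rfl⟩ | ⟨x, y, h, rfl⟩ | ⟨x, y, z, h, rfl⟩)
    · rw [ic_inj (show ic φ = ic bot from h)]; rfl
    · rw [ic_inj (show ic φ = ic (zero x) from h)]
      simp [Form.str, varStr_length]
    · rcases h with h | h
      · rw [ic_inj (show ic φ = ic (eq x y) from h)]
        simp [Form.str, varStr_length]; omega
      · rw [ic_inj (show ic φ = ic (succ x y) from h)]
        simp [Form.str, varStr_length]; omega
    · rcases h with h | h
      · rw [ic_inj (show ic φ = ic (add x y z) from h)]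
        simp [Form.str, varStr_length]; omega
      · rw [ic_inj (show ic φ = ic (mul x y z) from h)]
        simp [Form.str, varStr_length]; omega
  · rintro rfl
    cases φ with
    | bot => exact Or.inl ⟨rfl, rfl⟩
    | zero x => exact Or.inr (Or.inl ⟨x, rfl, by simp [Form.str, varStr_length]⟩)
    | eq x y =>
      exact Or.inr (Or.inr (Or.inl ⟨x, y, Or.inl rfl, by simp [Form.str, varStr_length]; omega⟩))
    | succ x y =>
      exact Or.inr (Or.inr (Or.inl ⟨x, y, Or.inr rfl, by simp [Form.str, varStr_length]; omega⟩))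
    | add x y z =>
      exact Or.inr (Or.inr (Or.inr ⟨x, y, z, Or.inl rfl,
        by simp [Form.str, varStr_length]; omega⟩))
    | mul x y z =>
      exact Or.inr (Or.inr (Or.inr ⟨x, y, z, Or.inr rfl,
        by simp [Form.str, varStr_length]; omega⟩))
    | imp _ _ => exact hφ.elim
    | all _ _ => exact hφ.elim

/-- `v k = v i + v j + n`. -/
theorem ar_sum2 (i j k n : ℕ) : Ar (fun v => v k = v i + v j + n) := by
  have h := ((ar_sum3 i j (i + j + k + 1) k n).and (ar_eqn (i + j + k + 1) 0)).ex (i + j + k + 1)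
  refine h.congr (fun v => ?_)
  have n1 : i ≠ i + j + k + 1 := by omega
  have n2 : j ≠ i + j + k + 1 := by omega
  have n3 : k ≠ i + j + k + 1 := by omega
  simp [n1, n2, n3]

/-- `v k = v i + n`. -/
theorem ar_sum1 (i k n : ℕ) : Ar (fun v => v k = v i + n) := by
  have h := ((ar_sum2 i (i + k + 1) k n).and (ar_eqn (i + k + 1) 0)).ex (i + k + 1)
  refine h.congr (fun v => ?_)
  have n1 : i ≠ i + k + 1 := by omega
  have n3 : k ≠ i + k + 1 := by omega
  simp [n1, n3]

theorem ar_lenAt : Ar (fun v => LenAt (v 0) (v 1)) := by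
  have c0 : Ar (fun v => v 0 = Nat.pair 0 0) :=
    (Ar.tm (.var 0) (.pair (nm 0) (nm 0))).congr (fun v => by simp [nm_eval, Tm.eval])
  have c2 : Ar (fun v => v 0 = Nat.pair 2 (v 3)) :=
    (Ar.tm (.var 0) (.pair (nm 2) (.var 3))).congr (fun v => by simp [nm_eval, Tm.eval])
  have c1 : ∀ k, Ar (fun v => v 0 = Nat.pair k (Nat.pair (v 3) (v 4))) := fun k =>
    (Ar.tm (.var 0) (.pair (nm k) (.pair (.var 3) (.var 4)))).congr
      (fun v => by simp [nm_eval, Tm.eval])
  have c4 : ∀ k, Ar (fun v => v 0 = Nat.pair k (Nat.pair (v 3) (Nat.pair (v 4) (v 5)))) :=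
    fun k => (Ar.tm (.var 0) (.pair (nm k) (.pair (.var 3) (.pair (.var 4) (.var 5))))).congr
      (fun v => by simp [nm_eval, Tm.eval])
  refine ((c0.and (ar_eqn 1 3)).or (((c2.and (ar_sum1 3 1 4)).ex 3).or
    (((((c1 1).or (c1 3)).and (ar_sum2 3 4 1 5)).ex 4).ex 3 |>.or
    ((((((c4 4).or (c4 5)).and (ar_sum3 3 4 5 1 6)).ex 5).ex 4).ex 3)))).congr (fun v => ?_)
  simp [LenAt]

/-- The length of the string of a formula. -/
def LenR (c r : ℕ) : Prop := ∃ φ : Form, c = ic φ ∧ r = φ.str.length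

theorem ar_lenR : Ar (fun v => LenR (v 0) (v 1)) := by
  have h := ar_fun (fun φ _ => φ.str.length) (fun c _ r => LenAt c r)
    (fun _ _ _ r₁ r₂ r => r = r₁ + r₂ + 3) (fun x _ _ r₁ r => r = r₁ + x + 4)
    (fun φ hφ a r => (lenAt_ic hφ r).symm) (fun φ ψ a r => ?_) (fun x φ a r => ?_)
    (app2 ar_lenAt (.var 0) (.var 2)) (ar_sum2 3 4 5 3) (ar_sum2 3 0 4 4)
  · refine (h.sub (sq [.var 0, .zero, .var 1])).congr (fun v => ?_)
    simp only [sq, Tm.eval, List.getD_cons_zero, List.getD_cons_succ]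
    rfl
  · have : (imp φ ψ).str.length = φ.str.length + ψ.str.length + 3 := by
      simp only [Form.str, List.length_append, List.length_cons, List.length_nil]; omega
    rw [this]
  · have : (all x φ).str.length = φ.str.length + x + 4 := by
      simp only [Form.str, List.length_append, List.length_cons, List.length_nil, varStr_length]
      omega
    rw [this]

/-- The length of the string of a list of formulas. -/
def LenLR (l r : ℕ) : Prop := ∃ Γ : List Form, l = il Γ ∧ r = (strs Γ).length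

theorem tl_len (Γ : List Form) : ∀ a r : ℕ, TL (fun _ r => r = 0)
    (fun c _ _ _ r₁ r => ∃ k, LenR c k ∧ r = k + r₁ + 0) Γ a r ↔ r = (strs Γ).length := by
  induction Γ with
  | nil => exact fun a r => Iff.rfl
  | cons φ Γ ih =>
    intro a r
    simp only [TL, ih]
    have : strs (φ :: Γ) = φ.str ++ strs Γ := rfl
    rw [this, List.length_append]
    constructor
    · rintro ⟨_, _, rfl, k, ⟨ψ, h2, rfl⟩, rfl⟩
      rw [ic_inj h2]; rfl
    · rintro rfl
      exact ⟨0, _, rfl, _, ⟨φ, rfl, rfl⟩, rfl⟩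

theorem ar_lenLR : Ar (fun v => LenLR (v 0) (v 1)) := by
  have h := ar_TL (N := fun _ r => r = 0)
    (C := fun c _ _ _ r₁ r => ∃ k, LenR c k ∧ r = k + r₁ + 0) (ar_eqn 1 0)
    ((((app2 ar_lenR (.var 0) (.var 6)).and (ar_sum2 6 4 5 0)).ex 6).congr
      (fun v => by simp [Tm.eval]))
  refine (h.sub (sq [.var 0, .zero, .var 1])).congr (fun v => ?_)
  simp only [sq, Tm.eval, List.getD_cons_zero, List.getD_cons_succ]
  exact exists_congr (fun Γ => and_congr_right (fun _ => tl_len Γ 0 (v 1)))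

/-! ### Provability -/

theorem ar_proves : Ar (fun v => ∃ (Γ : List Form) (φ : Form), v 0 = code Γ ∧ v 2 = code [φ] ∧
    Proves Γ (v 1) φ) := by
  -- `3, 4, 5, 6` are `g, c, p, n`
  have h1 := app3 ar_strLR (.var 3) .zero (.var 0)
  have h2 := app3 ar_strLR (.succ (.pair (.var 4) .zero)) .zero (.var 2)
  have h3 := app2 ar_proofR (.succ (.pair (.var 4) (.var 5))) (.var 3)
  have h4 := app2 ar_lenLR (.succ (.pair (.var 4) (.var 5))) (.var 6)
  have h := (((((h1.and h2).and h3).and (h4.and (Ar.le 6 1))).ex 6).ex 5).ex 4 |>.ex 3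
  clear h1 h2 h3 h4
  refine h.congr (fun v => ?_)
  constructor
  · rintro ⟨g, c, p, n, ⟨⟨hA, hB⟩, hC⟩, hD, hE⟩
    have hA' : StrLR g 0 (v 0) := by simpa [Tm.eval] using hA
    have hB' : StrLR (Nat.pair c 0 + 1) 0 (v 2) := by simpa [Tm.eval] using hB
    have hC' : ProofR (Nat.pair c p + 1) g := by simpa [Tm.eval] using hC
    have hD' : LenLR (Nat.pair c p + 1) n := by simpa [Tm.eval] using hD
    have hE' : n ≤ v 1 := by simpa using hE
    obtain ⟨Γ, rfl, h1⟩ := hA'
    obtain ⟨Δ, h2, h3⟩ := hB'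
    obtain ⟨Γ', π, h4, h5, h6⟩ := hC'
    obtain ⟨π', h7, h8⟩ := hD'
    obtain rfl := il_inj h4
    have h57 : il π = il π' := h5.symm.trans h7
    obtain rfl := il_inj h57
    cases π with
    | nil => simp [il] at h5
    | cons φ π =>
      simp only [il, Nat.add_right_cancel_iff, Nat.pair_eq_pair] at h5
      have h2' : il [φ] = il Δ := by rw [← h2]; simp [il, h5.1]
      obtain rfl := il_inj h2'
      exact ⟨Γ, φ, h1, h3, π, h6, h8 ▸ hE'⟩
  · rintro ⟨Γ, φ, h1, h2, π, h3, h4⟩
    refine ⟨il Γ, ic φ, il π, (strs (φ :: π)).length, ⟨⟨?_, ?_⟩, ?_⟩, ?_, ?_⟩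
    · have : StrLR (il Γ) 0 (v 0) := ⟨Γ, rfl, h1⟩
      simpa [Tm.eval] using this
    · have : StrLR (Nat.pair (ic φ) 0 + 1) 0 (v 2) := ⟨[φ], rfl, h2⟩
      simpa [Tm.eval] using this
    · have : ProofR (Nat.pair (ic φ) (il π) + 1) (il Γ) := ⟨Γ, φ :: π, rfl, rfl, h3⟩
      simpa [Tm.eval] using this
    · have : LenLR (Nat.pair (ic φ) (il π) + 1) (strs (φ :: π)).length := ⟨φ :: π, rfl, rfl⟩
      simpa [Tm.eval] using this
    · simpa using h4

theorem exists_represents : ∃ P : Form, Represents P := by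
  obtain ⟨φ, h1, h2⟩ := Ar.rep4 (fun a b c _ => ∃ (Γ : List Form) (φ : Form), a = code Γ ∧
    c = code [φ] ∧ Proves Γ b φ) ar_proves 2
  refine ⟨all 5 φ, fun x hx => ?_, fun v => ?_⟩
  · obtain ⟨h3, h4⟩ := h1 x hx.2
    have := hx.1
    omega
  · simp only [Form.Holds, h2]
    simp

end Pool.Agent.TH8.Arith
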