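import Pool.Agent.TH8.Arith.Rec

/-!
# Syntactic relations are arithmetical
-/

set_option autoImplicit false

namespace Pool.Agent.TH8.Arith

open Pool.Agent.TH672 Pool.Agent.TH672.Form

/-! ### Free variables -/

/-- The formula is atomic and the variable is free in it. -/
def FreeAt (c x : ℕ) : Prop := ∃ φ : Form, Atomic φ ∧ c = ic φ ∧ φ.Free x

theorem freeAt_iff (c x : ℕ) : FreeAt c x ↔
    (∃ u, c = Nat.pair 1 (Nat.pair x u)) ∨ (∃ u, c = Nat.pair 1 (Nat.pair u x)) ∨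
    c = Nat.pair 2 x ∨
    (∃ u, c = Nat.pair 3 (Nat.pair x u)) ∨ (∃ u, c = Nat.pair 3 (Nat.pair u x)) ∨
    (∃ u w, c = Nat.pair 4 (Nat.pair x (Nat.pair u w))) ∨
    (∃ u w, c = Nat.pair 4 (Nat.pair u (Nat.pair x w))) ∨
    (∃ u w, c = Nat.pair 4 (Nat.pair u (Nat.pair w x))) ∨
    (∃ u w, c = Nat.pair 5 (Nat.pair x (Nat.pair u w))) ∨
    (∃ u w, c = Nat.pair 5 (Nat.pair u (Nat.pair x w))) ∨
    (∃ u w, c = Nat.pair 5 (Nat.pair u (Nat.pair w x))) := by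
  constructor
  · rintro ⟨φ, h1, rfl, h3⟩
    cases φ with
    | bot => exact h3.elim
    | eq u w => rcases h3 with rfl | rfl <;> simp [ic, Nat.pair_eq_pair]
    | zero u => cases h3; simp [ic, Nat.pair_eq_pair]
    | succ u w => rcases h3 with rfl | rfl <;> simp [ic, Nat.pair_eq_pair]
    | add u w z => rcases h3 with rfl | rfl | rfl <;> simp [ic, Nat.pair_eq_pair]
    | mul u w z => rcases h3 with rfl | rfl | rfl <;> simp [ic, Nat.pair_eq_pair]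
    | imp _ _ => exact h1.elim
    | all _ _ => exact h1.elim
  · rintro (⟨u, h⟩ | ⟨u, h⟩ | h | ⟨u, h⟩ | ⟨u, h⟩ | ⟨u, w, h⟩ | ⟨u, w, h⟩ | ⟨u, w, h⟩ |
      ⟨u, w, h⟩ | ⟨u, w, h⟩ | ⟨u, w, h⟩)
    · exact ⟨eq x u, trivial, h, Or.inl rfl⟩
    · exact ⟨eq u x, trivial, h, Or.inr rfl⟩
    · exact ⟨zero x, trivial, h, rfl⟩
    · exact ⟨succ x u, trivial, h, Or.inl rfl⟩
    · exact ⟨succ u x, trivial, h, Or.inr rfl⟩
    · exact ⟨add x u w, trivial, h, Or.inl rfl⟩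
    · exact ⟨add u x w, trivial, h, Or.inr (Or.inl rfl)⟩
    · exact ⟨add u w x, trivial, h, Or.inr (Or.inr rfl)⟩
    · exact ⟨mul x u w, trivial, h, Or.inl rfl⟩
    · exact ⟨mul u x w, trivial, h, Or.inr (Or.inl rfl)⟩
    · exact ⟨mul u w x, trivial, h, Or.inr (Or.inr rfl)⟩

theorem ar_ex1 {s t : Tm} (x : ℕ) : Ar (fun v => ∃ a, s.eval (Function.update v x a) =
    t.eval (Function.update v x a)) := (Ar.tm s t).ex x

theorem ar_freeAt : Ar (fun v => FreeAt (v 0) (v 1)) := by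
  have p2 : ∀ k (s t : Tm), Ar (fun v => ∃ u, v 0 = Nat.pair k (Nat.pair
      (s.eval (Function.update v 2 u)) (t.eval (Function.update v 2 u)))) := fun k s t =>
    ((Ar.tm (.var 0) (.pair (nm k) (.pair s t))).ex 2).congr (fun v => by simp [Tm.eval, nm_eval])
  have p3 : ∀ k (s t r : Tm), Ar (fun v => ∃ u w, v 0 = Nat.pair k (Nat.pair
      (s.eval (Function.update (Function.update v 2 u) 3 w))
      (Nat.pair (t.eval (Function.update (Function.update v 2 u) 3 w))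
        (r.eval (Function.update (Function.update v 2 u) 3 w))))) := fun k s t r =>
    (((Ar.tm (.var 0) (.pair (nm k) (.pair s (.pair t r)))).ex 3).ex 2).congr
      (fun v => by simp [Tm.eval, nm_eval])
  have h1 := (p2 1 (.var 1) (.var 2)).or ((p2 1 (.var 2) (.var 1)).or
    (((Ar.tm (.var 0) (.pair (nm 2) (.var 1)))).or
    ((p2 3 (.var 1) (.var 2)).or ((p2 3 (.var 2) (.var 1)).or
    ((p3 4 (.var 1) (.var 2) (.var 3)).or ((p3 4 (.var 2) (.var 1) (.var 3)).or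
    ((p3 4 (.var 2) (.var 3) (.var 1)).or
    ((p3 5 (.var 1) (.var 2) (.var 3)).or ((p3 5 (.var 2) (.var 1) (.var 3)).or
    (p3 5 (.var 2) (.var 3) (.var 1)))))))))))
  refine h1.congr (fun v => ?_)
  rw [freeAt_iff]
  simp [Tm.eval, nm_eval]

/-- The variable is not free in the formula. -/
def NFr (c x : ℕ) : Prop := ∃ φ : Form, c = ic φ ∧ ¬ φ.Free x

theorem freeAt_ic {φ : Form} (hφ : Atomic φ) (x : ℕ) : FreeAt (ic φ) x ↔ φ.Free x :=
  ⟨fun ⟨ψ, _, h, h'⟩ => by rw [ic_inj h]; exact h', fun h => ⟨φ, hφ, rfl, h⟩⟩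

theorem ar_nfr : Ar (fun v => NFr (v 0) (v 1)) := by
  refine ar_pos (fun φ x => ¬ φ.Free x) (fun c x => ¬ FreeAt c x) (fun x _ a => a = x)
    (fun _ _ _ => True) (fun φ hφ a => by rw [freeAt_ic hφ]) (fun φ ψ a => ?_) (fun x φ a => ?_)
    ar_freeAt.not (Ar.eq 2 0) ar_true
  · simp [Form.Free, not_or]
  · simp only [Form.Free, not_and_or, not_not, true_and, ne_eq]

/-! ### Substitution -/

/-- The variable `u'` is `y` if `u` is `x`, and `u` otherwise. -/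
def Ren (x y u u' : ℕ) : Prop := (u = x ∧ u' = y) ∨ (¬ u = x ∧ u' = u)

theorem ren_iff (x y u u' : ℕ) : Ren x y u u' ↔ u' = ren x y u := by
  unfold Ren ren
  split_ifs with h <;> simp [h]

theorem ar_ren : Ar (fun v => Ren (v 0) (v 1) (v 2) (v 3)) :=
  ((Ar.eq 2 0).and (Ar.eq 3 1)).or ((Ar.eq 2 0).not.and (Ar.eq 3 2))

/-- Substitution in atomic formulas. -/
def SubAt (c a r : ℕ) : Prop := ∃ x y, a = Nat.pair x y ∧
  ((c = Nat.pair 0 0 ∧ r = Nat.pair 0 0) ∨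
  (∃ u u', Ren x y u u' ∧ c = Nat.pair 2 u ∧ r = Nat.pair 2 u') ∨
  (∃ u u' w w', (Ren x y u u' ∧ Ren x y w w') ∧
    ((c = Nat.pair 1 (Nat.pair u w) ∧ r = Nat.pair 1 (Nat.pair u' w')) ∨
    (c = Nat.pair 3 (Nat.pair u w) ∧ r = Nat.pair 3 (Nat.pair u' w')))) ∨
  (∃ u u' w w' z z', (Ren x y u u' ∧ Ren x y w w' ∧ Ren x y z z') ∧
    ((c = Nat.pair 4 (Nat.pair u (Nat.pair w z)) ∧
      r = Nat.pair 4 (Nat.pair u' (Nat.pair w' z'))) ∨
    (c = Nat.pair 5 (Nat.pair u (Nat.pair w z)) ∧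
      r = Nat.pair 5 (Nat.pair u' (Nat.pair w' z'))))))

theorem subAt_ic {φ : Form} (hφ : Atomic φ) (x y r : ℕ) :
    r = ic (φ.subst x y) ↔ SubAt (ic φ) (Nat.pair x y) r := by
  unfold SubAt
  simp only [Nat.pair_eq_pair, ren_iff]
  constructor
  · rintro rfl
    refine ⟨x, y, ⟨rfl, rfl⟩, ?_⟩
    cases φ with
    | bot => exact Or.inl ⟨rfl, rfl⟩
    | eq u w => exact Or.inr (Or.inr (Or.inl ⟨u, _, w, _, ⟨rfl, rfl⟩, Or.inl ⟨rfl, rfl⟩⟩))
    | zero u => exact Or.inr (Or.inl ⟨u, _, rfl, rfl, rfl⟩)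
    | succ u w => exact Or.inr (Or.inr (Or.inl ⟨u, _, w, _, ⟨rfl, rfl⟩, Or.inr ⟨rfl, rfl⟩⟩))
    | add u w z => exact Or.inr (Or.inr (Or.inr ⟨u, _, w, _, z, _, ⟨rfl, rfl, rfl⟩,
        Or.inl ⟨rfl, rfl⟩⟩))
    | mul u w z => exact Or.inr (Or.inr (Or.inr ⟨u, _, w, _, z, _, ⟨rfl, rfl, rfl⟩,
        Or.inr ⟨rfl, rfl⟩⟩))
    | imp _ _ => exact hφ.elim
    | all _ _ => exact hφ.elim
  · rintro ⟨_, _, ⟨rfl, rfl⟩, h⟩
    rcases h with ⟨h1, rfl⟩ | ⟨u, _, rfl, h1, rfl⟩ | ⟨u, _, w, _, ⟨rfl, rfl⟩, h⟩ |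
      ⟨u, _, w, _, z, _, ⟨rfl, rfl, rfl⟩, h⟩
    · rw [ic_inj (show ic φ = ic bot from h1)]; rfl
    · rw [ic_inj (show ic φ = ic (zero u) from h1)]; rfl
    · rcases h with ⟨h1, rfl⟩ | ⟨h1, rfl⟩
      · rw [ic_inj (show ic φ = ic (eq u w) from h1)]; rfl
      · rw [ic_inj (show ic φ = ic (succ u w) from h1)]; rfl
    · rcases h with ⟨h1, rfl⟩ | ⟨h1, rfl⟩
      · rw [ic_inj (show ic φ = ic (add u w z) from h1)]; rfl
      · rw [ic_inj (show ic φ = ic (mul u w z) from h1)]; rfl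

theorem ar_subAt : Ar (fun v => SubAt (v 0) (v 1) (v 2)) := by
  -- the variables `3, 4` are `x, y`; `5, 6, 7, 8, 9, 10` are `u, u', w, w', z, z'`
  have e0 : Ar (fun v => v 0 = Nat.pair 0 0 ∧ v 2 = Nat.pair 0 0) :=
    ((Ar.tm (.var 0) (.pair (nm 0) (nm 0))).and (Ar.tm (.var 2) (.pair (nm 0) (nm 0)))).congr
      (fun v => by simp [nm_eval, Tm.eval])
  have r1 : Ar (fun v => Ren (v 3) (v 4) (v 5) (v 6)) := app4 ar_ren (.var 3) (.var 4) (.var 5)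
    (.var 6)
  have r2 : Ar (fun v => Ren (v 3) (v 4) (v 7) (v 8)) := app4 ar_ren (.var 3) (.var 4) (.var 7)
    (.var 8)
  have r3 : Ar (fun v => Ren (v 3) (v 4) (v 9) (v 10)) := app4 ar_ren (.var 3) (.var 4) (.var 9)
    (.var 10)
  have q2 : Ar (fun v => v 0 = Nat.pair 2 (v 5) ∧ v 2 = Nat.pair 2 (v 6)) :=
    ((Ar.tm (.var 0) (.pair (nm 2) (.var 5))).and (Ar.tm (.var 2) (.pair (nm 2) (.var 6)))).congr
      (fun v => by simp [nm_eval, Tm.eval])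
  have q : ∀ k, Ar (fun v => v 0 = Nat.pair k (Nat.pair (v 5) (v 7)) ∧
      v 2 = Nat.pair k (Nat.pair (v 6) (v 8))) := fun k =>
    ((Ar.tm (.var 0) (.pair (nm k) (.pair (.var 5) (.var 7)))).and
      (Ar.tm (.var 2) (.pair (nm k) (.pair (.var 6) (.var 8))))).congr
      (fun v => by simp [nm_eval, Tm.eval])
  have q' : ∀ k, Ar (fun v => v 0 = Nat.pair k (Nat.pair (v 5) (Nat.pair (v 7) (v 9))) ∧
      v 2 = Nat.pair k (Nat.pair (v 6) (Nat.pair (v 8) (v 10)))) := fun k =>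
    ((Ar.tm (.var 0) (.pair (nm k) (.pair (.var 5) (.pair (.var 7) (.var 9))))).and
      (Ar.tm (.var 2) (.pair (nm k) (.pair (.var 6) (.pair (.var 8) (.var 10)))))).congr
      (fun v => by simp [nm_eval, Tm.eval])
  have h1 := ((r1.and q2).ex 6).ex 5
  have h2 := (((((r1.and r2).and ((q 1).or (q 3))).ex 8).ex 7).ex 6).ex 5
  have h3 := (((((((r1.and (r2.and r3)).and ((q' 4).or (q' 5))).ex 10).ex 9).ex 8).ex 7).ex 6).ex 5
  have h4 : Ar (fun v => v 1 = Nat.pair (v 3) (v 4)) := Ar.tm (.var 1) (.pair (.var 3) (.var 4))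
  refine (((h4.and (e0.or (h1.or (h2.or h3)))).ex 4).ex 3).congr (fun v => ?_)
  simp [SubAt]

theorem pair_unpair_fst_snd (a : ℕ) : Nat.pair a.unpair.1 a.unpair.2 = a := Nat.pair_unpair a

theorem ar_sub : Ar (fun v => ∃ φ : Form, v 0 = ic φ ∧
    v 2 = ic (φ.subst (v 1).unpair.1 (v 1).unpair.2)) := by
  refine ar_fun (fun φ a => ic (φ.subst a.unpair.1 a.unpair.2)) SubAt
    (fun _ _ _ r₁ r₂ r => r = Nat.pair 6 (Nat.pair r₁ r₂))
    (fun u c a r₁ r => ∃ x y, a = Nat.pair x y ∧ ((u = x ∧ r = Nat.pair 7 (Nat.pair u c)) ∨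
      (¬ u = x ∧ r = Nat.pair 7 (Nat.pair u r₁))))
    (fun φ hφ a r => ?_) (fun φ ψ a r => ?_) (fun u φ a r => ?_) ar_subAt ?_ ?_
  · rw [subAt_ic hφ, pair_unpair_fst_snd]
  · rfl
  · constructor
    · rintro rfl
      refine ⟨a.unpair.1, a.unpair.2, (Nat.pair_unpair a).symm, ?_⟩
      by_cases h : u = a.unpair.1
      · exact Or.inl ⟨h, by simp [Form.subst, h, ic]⟩
      · exact Or.inr ⟨h, by simp [Form.subst, h, ic]⟩
    · rintro ⟨x, y, rfl, h⟩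
      simp only [Nat.unpair_pair] at h ⊢
      rcases h with ⟨h, rfl⟩ | ⟨h, rfl⟩ <;> simp [Form.subst, h, ic]
  · exact (Ar.tm (.var 5) (.pair (nm 6) (.pair (.var 3) (.var 4)))).congr
      (fun v => by simp [nm_eval, Tm.eval])
  · have h1 : Ar (fun v => v 2 = Nat.pair (v 5) (v 6)) := Ar.tm (.var 2) (.pair (.var 5) (.var 6))
    have h2 : Ar (fun v => v 4 = Nat.pair 7 (Nat.pair (v 0) (v 1))) :=
      (Ar.tm (.var 4) (.pair (nm 7) (.pair (.var 0) (.var 1)))).congr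
        (fun v => by simp [nm_eval, Tm.eval])
    have h3 : Ar (fun v => v 4 = Nat.pair 7 (Nat.pair (v 0) (v 3))) :=
      (Ar.tm (.var 4) (.pair (nm 7) (.pair (.var 0) (.var 3)))).congr
        (fun v => by simp [nm_eval, Tm.eval])
    exact (((h1.and (((Ar.eq 0 5).and h2).or ((Ar.eq 0 5).not.and h3))).ex 6).ex 5).congr
      (fun v => by simp)

/-- The variable `y` is free for the variable `x` in the formula, and the result of the
substitution. -/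
def FFr (y x c : ℕ) : Prop := ∃ φ : Form, c = ic φ ∧ φ.FreeFor y x

theorem ar_ffr : Ar (fun v => FFr (v 0) (v 1) (v 2)) := by
  have h := ar_pos (fun φ a => φ.FreeFor a.unpair.1 a.unpair.2) (fun _ _ => True)
    (fun u c a => ∃ y x, a = Nat.pair y x ∧ (u = x ∨ NFr c x))
    (fun u _ a => ∃ y x, a = Nat.pair y x ∧ ¬ u = y) (fun φ hφ a => ?_) (fun φ ψ a => Iff.rfl)
    (fun u φ a => ?_) ar_true ?_ ?_
  · refine (h.sub (sq [.var 2, .pair (.var 0) (.var 1)])).congr (fun v => ?_)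
    simp only [sq, Tm.eval, List.getD_cons_zero, List.getD_cons_succ, Nat.unpair_pair]
    rfl
  · cases φ <;> simp_all [Atomic, Form.FreeFor]
  · have h1 : (∃ y x, a = Nat.pair y x ∧ (u = x ∨ NFr (ic φ) x)) ↔
        (u = a.unpair.2 ∨ ¬ φ.Free a.unpair.2) := by
      constructor
      · rintro ⟨y, x, rfl, h⟩
        rw [Nat.unpair_pair]
        refine h.imp id ?_
        rintro ⟨ψ, h1, h2⟩
        rwa [ic_inj h1]
      · intro h
        exact ⟨_, _, (Nat.pair_unpair a).symm, h.imp id (fun h => ⟨φ, rfl, h⟩)⟩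
    have h2 : (∃ y x, a = Nat.pair y x ∧ ¬ u = y) ↔ ¬ u = a.unpair.1 := by
      constructor
      · rintro ⟨y, x, rfl, h⟩
        rwa [Nat.unpair_pair]
      · intro h
        exact ⟨_, _, (Nat.pair_unpair a).symm, h⟩
    rw [h1, h2, or_assoc]
    rfl
  · have h1 : Ar (fun v => v 2 = Nat.pair (v 3) (v 4)) := Ar.tm (.var 2) (.pair (.var 3) (.var 4))
    exact (((h1.and ((Ar.eq 0 4).or (app2 ar_nfr (.var 1) (.var 4)))).ex 4).ex 3).congr
      (fun v => by simp [Tm.eval])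
  · have h1 : Ar (fun v => v 2 = Nat.pair (v 3) (v 4)) := Ar.tm (.var 2) (.pair (.var 3) (.var 4))
    exact (((h1.and (Ar.eq 0 3).not).ex 4).ex 3).congr (fun v => by simp)

end Pool.Agent.TH8.Arith
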